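import Pool.Agent.GT.StmtsC

/-!
# Squad GT, row C_SSB: bounds for `S(t)`
-/

open Finset

namespace Pool.Agent.GT.H25

theorem c_ssb (sst : SstStmt) (qqb : QqbStmt) (lvc : LvcStmt) : SsbStmt := by
  intro P R t hP hR ht
  have hG : 0 < GG P R := by
    have := (lvc P R hP hR).2.1
    linarith
  refine ⟨?_, ?_⟩
  · rw [sst P R t hP ht, abs_mul]
    have h1 : |∏ p ∈ t, (1 - 1 / (p : ℝ))⁻¹| ≤ 2 ^ t.card := by
      rw [Finset.abs_prod, ← Finset.prod_const]
      refine Finset.prod_le_prod (fun i _ => abs_nonneg _) fun p hp => ?_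
      have hp2 : (2 : ℝ) ≤ p := by exact_mod_cast (hP p (ht hp)).two_le
      have h2 : (1 : ℝ) / p ≤ 1 / 2 := one_div_le_one_div_of_le (by norm_num) hp2
      have h3 : (1 : ℝ) / 2 ≤ 1 - 1 / p := by linarith
      rw [abs_of_nonneg (inv_nonneg.2 (by linarith))]
      have h4 := inv_anti₀ (by norm_num : (0 : ℝ) < 1 / 2) h3
      linarith
    have h2 : |∑ u ∈ t.powerset, (-1 : ℝ) ^ u.card * QQ P R (t \ u)| ≤ 5 ^ t.card / GG P R := by
      refine (Finset.abs_sum_le_sum_abs _ _).trans ?_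
      have h3 : ∀ u ∈ t.powerset, |(-1 : ℝ) ^ u.card * QQ P R (t \ u)| ≤
          (1 : ℝ) ^ u.card * 4 ^ (t.card - u.card) / GG P R := by
        intro u hu
        have hut : u ⊆ t := Finset.mem_powerset.1 hu
        obtain ⟨q1, q2, -⟩ := qqb P R (t \ u) hP hR (Finset.sdiff_subset.trans ht)
        rw [abs_mul, abs_pow, abs_neg, abs_one, one_pow, one_mul, one_mul, abs_of_nonneg q1,
          ← Finset.card_sdiff_of_subset hut]
        exact q2
      refine (Finset.sum_le_sum h3).trans ?_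
      rw [← Finset.sum_div, Finset.sum_pow_mul_eq_add_pow]
      norm_num
    have h3 : (0 : ℝ) ≤ 5 ^ t.card / GG P R := by positivity
    calc |∏ p ∈ t, (1 - 1 / (p : ℝ))⁻¹| *
          |∑ u ∈ t.powerset, (-1 : ℝ) ^ u.card * QQ P R (t \ u)| ≤
          2 ^ t.card * (5 ^ t.card / GG P R) := by
          refine mul_le_mul h1 h2 (abs_nonneg _) (by positivity)
      _ = 10 ^ t.card / GG P R := by
          rw [← mul_div_assoc, ← mul_pow]
          norm_num
  · rw [sst P R ∅ hP (Finset.empty_subset _)]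
    simp only [Finset.prod_empty, Finset.powerset_empty, Finset.sum_singleton, Finset.card_empty,
      pow_zero, one_mul, Finset.sdiff_self]
    exact (qqb P R ∅ hP hR (Finset.empty_subset _)).2.2

end Pool.Agent.GT.H25
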